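import Mathlib
import Pool.Agent.N228.AZ.Stm3

/-! # Project AZ: the expansion of the area of the Multibrot sets -/

set_option autoImplicit false
set_option maxHeartbeats 400000
open Metric MeasureTheory Set Filter Topology

namespace Pool.Agent.N721.AZ.ToArea2

open Pool.Agent.W747.MB
open Pool.Agent.TH363.CD
open Pool.Agent.N228.AZ

/-- The parameters with an attracting fixed point. -/
def W (n : ℕ) : Set ℂ := {c : ℂ | ∃ z, N62a1eb23.IsAttractingCycle (f n c) 1 z}

theorem differentiable_iter (n : ℕ) (c : ℂ) (d : ℕ) : Differentiable ℂ (f n c)^[d] := by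
  have h : Differentiable ℂ (f n c) := by
    unfold f
    fun_prop
  exact h.iterate d

/-- An attracting cycle is attracting for its exact period. -/
theorem exact_period {n : ℕ} {c z : ℂ} {m : ℕ}
    (hz : N62a1eb23.IsAttractingCycle (f n c) m z) :
    N62a1eb23.IsAttractingCycle (f n c) (Function.minimalPeriod (f n c) z) z := by
  obtain ⟨h0, hp, -, hd⟩ := hz
  set d := Function.minimalPeriod (f n c) z with hdd
  have hd0 : 0 < d := hp.minimalPeriod_pos h0
  obtain ⟨k, hk⟩ : d ∣ m := hp.minimalPeriod_dvd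
  have hfix : (f n c)^[d] z = z := Function.iterate_minimalPeriod
  have hD : HasDerivAt (f n c)^[d] (deriv (f n c)^[d] z) z :=
    ((differentiable_iter n c d) z).hasDerivAt
  refine ⟨hd0, hfix, (differentiable_iter n c d) z, ?_⟩
  have h1 : HasDerivAt (f n c)^[m] (deriv (f n c)^[d] z ^ k) z := by
    have h2 := _root_.HasDerivAt.iterate z hD hfix k
    rwa [← Function.iterate_mul, ← hk] at h2
  rw [h1.deriv, norm_pow] at hd
  by_contra hcon
  push Not at hcon
  exact absurd hd (not_lt.2 (one_le_pow₀ hcon))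

theorem W_eq (n : ℕ) : W n = Ex n 1 := by
  ext c
  constructor
  · rintro ⟨z, hz⟩
    refine ⟨z, hz, ?_⟩
    rw [Function.minimalPeriod_eq_one_iff_isFixedPt]
    have := hz.2.1
    rwa [Function.IsPeriodicPt, Function.iterate_one] at this
  · rintro ⟨z, hz, -⟩
    exact ⟨z, hz⟩

theorem Ex_disj {n : ℕ} (hn : 2 ≤ n) {a b : ℕ} (hab : a ≠ b) : Disjoint (Ex n a) (Ex n b) := by
  rw [Set.disjoint_left]
  rintro c ⟨z, hz, h1⟩ ⟨z', hz', h2⟩
  have := period_unique hn hz hz'
  rw [h1, h2] at this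
  exact hab this.symm

theorem Ex_sub (n m : ℕ) : Ex n m ⊆ hyp n := by
  rintro c ⟨z, hz, -⟩
  exact ⟨m, z, hz⟩

theorem hyp_sub {n : ℕ} (hn : 2 ≤ n) : hyp n ⊆ N62a1eb23.multibrotSet n := by
  rintro c ⟨m, z, hz⟩
  exact mem_multibrot hn (m := m) (z := z) hz

theorem M_sub (n K : ℕ) : N62a1eb23.multibrotSet n ⊆
    (⋃ j ∈ Finset.range (K + 1), Ex n (j + 1)) ∪ NN n (K + 1) := by
  intro c hc
  by_cases h : c ∈ NN n (K + 1)
  · exact Or.inr h
  · left
    have h2 : ∃ m, 1 ≤ m ∧ m ≤ K + 1 ∧ ∃ z, N62a1eb23.IsAttractingCycle (f n c) m z := by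
      by_contra hcon
      push Not at hcon
      refine h ⟨hc, ?_⟩
      rintro m h1 h2 ⟨z, hz⟩
      exact hcon m h1 h2 z hz
    obtain ⟨m, h1, h2, z, hz⟩ := h2
    have h3 := exact_period hz
    have h4 : 0 < Function.minimalPeriod (f n c) z := h3.1
    have h5 : Function.minimalPeriod (f n c) z ≤ m := hz.2.1.minimalPeriod_le h1
    simp only [mem_iUnion, Finset.mem_range]
    refine ⟨Function.minimalPeriod (f n c) z - 1, by omega, z, ?_, by omega⟩
    rwa [Nat.sub_add_cancel h4]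

theorem M_fin {n : ℕ} (hn : 2 ≤ n) : volume (N62a1eb23.multibrotSet n) ≠ ⊤ := by
  refine ne_top_of_le_ne_top (measure_closedBall_lt_top (x := (0:ℂ)) (r := 2)).ne
    (measure_mono ?_)
  intro c hc
  rw [mem_closedBall_zero_iff]
  exact Pool.Agent.H749R2.Hyp.x_le_two hn hc

theorem toReal_lemma {n : ℕ} (hn : 2 ≤ n) (hMeas : P_MEAS) (K : ℕ) (hfin : volume (NN n (K + 1)) ≠ ⊤) :
    ∑ j ∈ Finset.range (K + 1), (volume (Ex n (j + 1))).toReal ≤ (volume (hyp n)).toReal ∧
    (volume (hyp n)).toReal ≤ (volume (N62a1eb23.multibrotSet n)).toReal ∧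
    (volume (N62a1eb23.multibrotSet n)).toReal ≤
      ∑ j ∈ Finset.range (K + 1), (volume (Ex n (j + 1))).toReal +
        (volume (NN n (K + 1))).toReal := by
  have fM := M_fin hn
  have c2 : volume (hyp n) ≤ volume (N62a1eb23.multibrotSet n) := measure_mono (hyp_sub hn)
  have fH : volume (hyp n) ≠ ⊤ := ne_top_of_le_ne_top fM c2
  have fE : ∀ m, volume (Ex n m) ≠ ⊤ := fun m =>
    ne_top_of_le_ne_top fH (measure_mono (Ex_sub n m))
  have hU : volume (⋃ j ∈ Finset.range (K + 1), Ex n (j + 1)) =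
      ∑ j ∈ Finset.range (K + 1), volume (Ex n (j + 1)) := by
    apply measure_biUnion_finset
    · intro a _ b _ hab
      exact Ex_disj hn (by omega)
    · intro j _
      exact ((hMeas n hn).2 (j + 1)).1
  have hS : (∑ j ∈ Finset.range (K + 1), volume (Ex n (j + 1))).toReal =
      ∑ j ∈ Finset.range (K + 1), (volume (Ex n (j + 1))).toReal :=
    ENNReal.toReal_sum fun j _ => fE _
  have hSf : ∑ j ∈ Finset.range (K + 1), volume (Ex n (j + 1)) ≠ ⊤ :=
    ENNReal.sum_ne_top.2 fun j _ => fE _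
  refine ⟨?_, ENNReal.toReal_mono fM c2, ?_⟩
  · rw [← hS, ← hU]
    exact ENNReal.toReal_mono fH (measure_mono (iUnion₂_subset fun j _ => Ex_sub n (j + 1)))
  · rw [← hS, ← ENNReal.toReal_add hSf hfin]
    refine ENNReal.toReal_mono (ENNReal.add_ne_top.2 ⟨hSf, hfin⟩) ?_
    calc volume (N62a1eb23.multibrotSet n) ≤ volume ((⋃ j ∈ Finset.range (K + 1), Ex n (j + 1)) ∪
          NN n (K + 1)) := measure_mono (M_sub n K)
      _ ≤ _ := measure_union_le _ _
      _ = _ := by rw [hU]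

theorem iter_log_tendsto (K : ℕ) : Tendsto (fun n : ℕ => Real.log^[K] (n:ℝ)) atTop atTop := by
  induction K with
  | zero => simpa using tendsto_natCast_atTop_atTop (R := ℝ)
  | succ K ih =>
    simp only [Function.iterate_succ', Function.comp_apply]
    exact Real.tendsto_log_atTop.comp ih

theorem main : P_TOAREA2 := by
  intro hMeas hMain hFull K
  obtain ⟨C0, hC0, h0⟩ := hMain
  have hF : ∀ k : ℕ, ∃ C : ℝ, 0 < C ∧ ∀ᶠ n : ℕ in atTop,
      |n * (volume (Ex n (k + 1 + 1))).toReal - Real.pi / 2 ^ k * Real.log^[k + 1] (n:ℝ)| ≤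
        C * Real.log^[K + 1] (n:ℝ) := fun k => by
    have := hFull (k + 1) (K + 1) (by omega)
    simpa using this
  choose Cf hCf hf using hF
  obtain ⟨CN, hCN, hN⟩ := upperN (k := K + 1) (by omega)
  refine ⟨C0 + ∑ j ∈ Finset.range K, Cf j + CN, ?_, ?_⟩
  · have : 0 ≤ ∑ j ∈ Finset.range K, Cf j := Finset.sum_nonneg fun j _ => (hCf j).le
    linarith
  have hall : ∀ᶠ n : ℕ in atTop, ∀ j ∈ Finset.range K,
      |n * (volume (Ex n (j + 1 + 1))).toReal - Real.pi / 2 ^ j * Real.log^[j + 1] (n:ℝ)| ≤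
        Cf j * Real.log^[K + 1] (n:ℝ) := by
    rw [Filter.eventually_all_finset]
    intro j _
    exact hf j
  filter_upwards [h0, hN, hall, eventually_ge_atTop 2,
    (iter_log_tendsto (K + 1)).eventually_ge_atTop 1] with n g0 gN gall hn hL
  have fN : volume (NN n (K + 1)) ≠ ⊤ := ne_top_of_le_ne_top ENNReal.ofReal_ne_top gN
  obtain ⟨k1, k2, k3⟩ := toReal_lemma hn hMeas K fN
  have hn0 : (0:ℝ) < n := by
    have : (2:ℝ) ≤ n := by exact_mod_cast hn
    linarith
  set Lg := Real.log^[K + 1] (n:ℝ) with hLg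
  have gN' : n * (volume (NN n (K + 1))).toReal ≤ CN * Lg := by
    have h1 : (volume (NN n (K + 1))).toReal ≤ CN * Lg / n :=
      ENNReal.toReal_le_of_le_ofReal (by positivity) gN
    calc n * (volume (NN n (K + 1))).toReal ≤ n * (CN * Lg / n) :=
          mul_le_mul_of_nonneg_left h1 hn0.le
      _ = CN * Lg := by field_simp
  have gN0 : 0 ≤ (volume (NN n (K + 1))).toReal := ENNReal.toReal_nonneg
  -- the sum
  rw [Finset.sum_range_succ'] at k1 k3
  have eW : Ex n (0 + 1) = {c : ℂ | ∃ z, N62a1eb23.IsAttractingCycle (f n c) 1 z} := (W_eq n).symm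
  rw [eW] at k1 k3
  set w := (volume {c : ℂ | ∃ z, N62a1eb23.IsAttractingCycle (f n c) 1 z}).toReal with hw
  set S := ∑ j ∈ Finset.range K, (volume (Ex n (j + 1 + 1))).toReal with hS
  set T := ∑ j ∈ Finset.range K, Real.pi / 2 ^ j * Real.log^[j + 1] (n:ℝ) with hT
  have hST : |n * S - T| ≤ (∑ j ∈ Finset.range K, Cf j) * Lg := by
    rw [hS, hT, Finset.mul_sum, ← Finset.sum_sub_distrib, Finset.sum_mul]
    exact (Finset.abs_sum_le_sum_abs _ _).trans (Finset.sum_le_sum gall)
  have hC0L : C0 ≤ C0 * Lg := by nlinarith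
  have hCNL : 0 ≤ CN * Lg := by positivity
  have m1 : n * (S + w) ≤ n * (volume (hyp n)).toReal := mul_le_mul_of_nonneg_left k1 hn0.le
  have m2 : n * (volume (hyp n)).toReal ≤ n * (volume (N62a1eb23.multibrotSet n)).toReal :=
    mul_le_mul_of_nonneg_left k2 hn0.le
  have m3 : n * (volume (N62a1eb23.multibrotSet n)).toReal ≤
      n * (S + w + (volume (NN n (K + 1))).toReal) := mul_le_mul_of_nonneg_left k3 hn0.le
  rw [abs_le] at g0 hST
  constructor
  · rw [abs_le]
    constructor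
    · nlinarith
    · nlinarith
  · rw [abs_le]
    constructor
    · nlinarith
    · nlinarith

end Pool.Agent.N721.AZ.ToArea2
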